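import Mathlib

/-!
# MP_34cb91_co: a commutative algebra lemma and the group algebra of an elementary abelian 2-group
-/

namespace Pool34cb91

/-- more than `card ι` elements of the ideal generated by `card ι` elements of square zero have
product zero -/
theorem prod_eq_zero_of_sq_zero {R : Type*} [CommRing R] {ι E : Type*} [Fintype ι] [Fintype E]
    (t : ι → R) (ht : ∀ i, t i * t i = 0) (f : E → R)
    (hf : ∀ e, f e ∈ Ideal.span (Set.range t)) (hc : Fintype.card ι < Fintype.card E) :
    ∏ e, f e = 0 := by
  classical
  have h1 : ∀ e, ∃ c : ι → R, ∑ i, c i * t i = f e := fun e =>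
    Ideal.mem_span_range_iff_exists_fun.1 (hf e)
  choose c hc' using h1
  have h2 : ∏ e, f e = ∏ e, ∑ i ∈ (Finset.univ : Finset ι), c e i * t i := by
    apply Finset.prod_congr rfl
    intro e _
    exact (hc' e).symm
  rw [h2, Finset.prod_univ_sum]
  apply Finset.sum_eq_zero
  intro x _
  rw [Finset.prod_mul_distrib]
  obtain ⟨e, e', hne, hx⟩ := Fintype.exists_ne_map_eq_of_card_lt x hc
  have h3 : ∏ e, t (x e) = 0 := by
    rw [← Finset.prod_erase_mul _ _ (Finset.mem_univ e),
      ← Finset.prod_erase_mul (Finset.univ.erase e) _ (Finset.mem_erase.2 ⟨hne.symm, Finset.mem_univ e'⟩),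
      mul_assoc, hx, ht, mul_zero]
  rw [h3, mul_zero]

/-- the elementary abelian 2-group with basis `V`, written multiplicatively -/
abbrev Gp (V : Type) := Multiplicative (V → ZMod 2)

/-- its group algebra over the field with two elements -/
abbrev Al (V : Type) := MonoidAlgebra (ZMod 2) (Gp V)

variable {V : Type}

instance : CharP (Al V) 2 :=
  charP_of_injective_algebraMap (algebraMap (ZMod 2) (Al V)).injective 2

/-- the augmentation -/
noncomputable def aug : Al V →+* ZMod 2 :=
  ((MonoidAlgebra.lift (ZMod 2) (ZMod 2) (Gp V)) (1 : Gp V →* ZMod 2)).toRingHom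

theorem aug_of (g : Gp V) : aug (MonoidAlgebra.of (ZMod 2) (Gp V) g) = 1 := by
  simp [aug]

theorem gp_sq (g : Gp V) : g * g = 1 := by
  have : Multiplicative.toAdd (g * g) = Multiplicative.toAdd (1 : Gp V) := by
    rw [toAdd_mul, toAdd_one]
    funext v
    exact CharTwo.add_self_eq_zero _
  exact this

/-- squares are given by the augmentation -/
theorem sq_eq (a : Al V) : a * a = algebraMap (ZMod 2) (Al V) (aug a) := by
  have h : frobenius (Al V) 2 = (algebraMap (ZMod 2) (Al V)).comp aug := by
    apply MonoidAlgebra.ringHom_ext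
    · intro r
      have h1 : (MonoidAlgebra.single 1 r : Al V) = algebraMap (ZMod 2) (Al V) r := rfl
      rw [h1, RingHom.comp_apply, frobenius_def, ← map_pow]
      have h2 : aug (algebraMap (ZMod 2) (Al V) r) = r := by
        simp [aug]
      rw [h2]
      rw [ZMod.pow_card r]
    · intro g
      have h1 : (MonoidAlgebra.single g 1 : Al V) = MonoidAlgebra.of (ZMod 2) (Gp V) g := rfl
      rw [h1, RingHom.comp_apply, aug_of, map_one, frobenius_def, ← map_pow, pow_two, gp_sq, map_one]
  have := RingHom.congr_fun h a
  rw [frobenius_def, pow_two] at this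
  exact this

theorem sq_zero {a : Al V} (h : aug a = 0) : a * a = 0 := by
  rw [sq_eq, h, map_zero]

theorem isUnit_of_aug {a : Al V} (h : aug a = 1) : IsUnit a := by
  have h1 : a * a = 1 := by rw [sq_eq, h, map_one]
  exact IsUnit.of_mul_eq_one a h1

/-! ## The variables and the top coefficient -/

variable [DecidableEq V]

/-- the group element with one nonzero coordinate -/
def ge (v : V) : Gp V := Multiplicative.ofAdd (Pi.single v 1)

/-- the variable number `v`; its augmentation is `1` for `v ∈ D` and `0` otherwise -/
noncomputable def X (D : V → Prop) [DecidablePred D] (v : V) : Al V :=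
  MonoidAlgebra.of (ZMod 2) (Gp V) (ge v) + algebraMap (ZMod 2) (Al V) (if D v then 0 else 1)

theorem aug_X (D : V → Prop) [DecidablePred D] (v : V) :
    aug (X D v) = if D v then 1 else 0 := by
  have h2 : ∀ r, aug (algebraMap (ZMod 2) (Al V) r) = r := by
    intro r
    simp [aug]
  unfold X
  rw [map_add, aug_of, h2]
  by_cases h : D v
  · simp [h]
  · simp only [h, if_false]
    decide

/-- the top coefficient -/
noncomputable def top (a : Al V) : ZMod 2 :=
  a.coeff (Multiplicative.ofAdd (fun _ : V => (1 : ZMod 2)))

theorem top_sum {α : Type*} (s : Finset α) (f : α → Al V) : top (∑ i ∈ s, f i) = ∑ i ∈ s, top (f i) := by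
  unfold top
  rw [MonoidAlgebra.coeff_sum, Finsupp.finsetSum_apply]

/-- killing a coordinate -/
def kill (v : V) : Gp V →* Gp V where
  toFun g := Multiplicative.ofAdd (Function.update (Multiplicative.toAdd g) v 0)
  map_one' := by
    show Function.update (0 : V → ZMod 2) v 0 = 0
    simp
  map_mul' g h := by
    show Function.update ((Multiplicative.toAdd g) + (Multiplicative.toAdd h)) v 0 =
      Function.update (Multiplicative.toAdd g) v 0 + Function.update (Multiplicative.toAdd h) v 0
    funext w
    by_cases hw : w = v
    · subst hw; simp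
    · simp [hw]

/-- a product of variables in which one of them is missing has top coefficient zero -/
theorem top_prod_missing (D : V → Prop) [DecidablePred D] {W : Type*} [Fintype W] (f : W → V)
    (v : V) (hv : ∀ w, f w ≠ v) : top (∏ w, X D (f w)) = 0 := by
  have h1 : ∀ w, w ≠ v → MonoidAlgebra.mapDomainRingHom (ZMod 2) (kill v) (X D w) = X D w := by
    intro w hw
    unfold X
    rw [map_add]
    congr 1
    · show MonoidAlgebra.mapDomain (kill v) (MonoidAlgebra.single (ge w) 1) = MonoidAlgebra.single (ge w) 1
      rw [MonoidAlgebra.mapDomain_single]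
      congr 1
      show Multiplicative.ofAdd (Function.update (Pi.single w (1 : ZMod 2) : V → ZMod 2) v 0) =
        Multiplicative.ofAdd (Pi.single w (1 : ZMod 2) : V → ZMod 2)
      congr 1
      funext u
      by_cases hu : u = v
      · subst hu
        simp [Pi.single_apply, hw.symm]
      · simp [hu]
    · show MonoidAlgebra.mapDomain (kill v) (MonoidAlgebra.single 1 _) = MonoidAlgebra.single 1 _
      rw [MonoidAlgebra.mapDomain_single, map_one]
  have h2 : MonoidAlgebra.mapDomainRingHom (ZMod 2) (kill v) (∏ w, X D (f w)) = ∏ w, X D (f w) := by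
    rw [map_prod]
    exact Finset.prod_congr rfl (fun w _ => h1 _ (hv w))
  rw [← h2]
  unfold top
  show (MonoidAlgebra.mapDomain (kill v) (∏ w, X D (f w))).coeff _ = 0
  apply Finsupp.mapDomain_of_notMem_range
  rintro ⟨g, hg⟩
  have := congrFun (congrArg Multiplicative.toAdd hg) v
  simp [kill] at this

/-- the product of all variables has top coefficient one -/
theorem top_prod_all (D : V → Prop) [DecidablePred D] [Fintype V] : top (∏ v, X D v) = 1 := by
  have h1 : (∏ v, X D v) = ∑ t ∈ (Finset.univ : Finset V).powerset,
      (∏ v ∈ t, MonoidAlgebra.of (ZMod 2) (Gp V) (ge v)) *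
        ∏ v ∈ Finset.univ \ t, algebraMap (ZMod 2) (Al V) (if D v then 0 else 1) := by
    unfold X
    exact Finset.prod_add _ _ _
  rw [h1, top_sum]
  have h2 : ∀ t : Finset V, top ((∏ v ∈ t, MonoidAlgebra.of (ZMod 2) (Gp V) (ge v)) *
        ∏ v ∈ Finset.univ \ t, algebraMap (ZMod 2) (Al V) (if D v then 0 else 1)) =
      (if t = Finset.univ then 1 else 0) * ∏ v ∈ Finset.univ \ t, (if D v then 0 else 1) := by
    intro t
    rw [← map_prod, ← map_prod]
    have h3 : MonoidAlgebra.of (ZMod 2) (Gp V) (∏ v ∈ t, ge v) =
      MonoidAlgebra.single (∏ v ∈ t, ge v) 1 := rfl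
    have h4 : algebraMap (ZMod 2) (Al V) (∏ v ∈ Finset.univ \ t, (if D v then 0 else 1)) =
      MonoidAlgebra.single 1 (∏ v ∈ Finset.univ \ t, (if D v then 0 else 1)) := rfl
    rw [h3, h4, MonoidAlgebra.single_mul_single, mul_one, one_mul]
    unfold top
    have h5 : ∀ v, Multiplicative.toAdd (∏ v ∈ t, ge v) v = if v ∈ t then (1 : ZMod 2) else 0 := by
      intro v
      rw [toAdd_prod, Finset.sum_apply]
      simp [ge, Pi.single_apply]
    by_cases ht : t = Finset.univ
    · subst ht
      have h6 : (∏ v, ge v) = Multiplicative.ofAdd (fun _ : V => (1 : ZMod 2)) := by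
        apply Multiplicative.toAdd.injective
        funext v
        rw [h5 v]
        simp
      rw [h6]
      simp
    · rw [if_neg ht, zero_mul]
      apply Finsupp.single_eq_of_ne
      intro h
      apply ht
      ext v
      have := congrFun (congrArg Multiplicative.toAdd h) v
      simp only [Finset.mem_univ, iff_true]
      by_contra hv
      rw [h5 v, if_neg hv] at this
      simp at this
  rw [Finset.sum_congr rfl (fun t _ => h2 t)]
  rw [Finset.sum_eq_single Finset.univ]
  · simp
  · intro t _ ht
    simp [ht]
  · intro h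
    simp at h

/-- the top coefficient of a product of `card V` variables -/
theorem top_prod (D : V → Prop) [DecidablePred D] [Fintype V] {W : Type*} [Fintype W]
    (hc : Fintype.card W = Fintype.card V) (f : W → V) :
    top (∏ w, X D (f w)) = if Function.Injective f then 1 else 0 := by
  classical
  by_cases hf : Function.Injective f
  · rw [if_pos hf]
    have hb : Function.Bijective f := (Fintype.bijective_iff_injective_and_card f).2 ⟨hf, hc⟩
    rw [← top_prod_all D]
    congr 1
    exact Function.Bijective.prod_comp hb (fun v => X D v)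
  · rw [if_neg hf]
    have hs : ¬ Function.Surjective f := fun hs =>
      hf ((Fintype.bijective_iff_surjective_and_card f).2 ⟨hs, hc⟩).1
    unfold Function.Surjective at hs
    push Not at hs
    obtain ⟨v, hv⟩ := hs
    exact top_prod_missing D f v hv

end Pool34cb91
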