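import Pool.Agent.Lib.MP_34cb91_co.Alg

/-!
# MP_34cb91_co: the parity theorem and the lower bound for defining sets of latin squares
-/

namespace Pool34cb91

open Matrix

/-- block elimination: all entries of `Mᵀ N` lie in the ideal generated by the entries of the
Schur complement of `M` and of the first block of rows of `Mᵀ N` -/
theorem entries_mem {R : Type*} [CommRing R] {P A B J : Type*} [Fintype P] [Fintype A]
    [DecidableEq P] (M : Matrix (P ⊕ A) (P ⊕ B) R) (N : Matrix (P ⊕ A) J R)
    (hM : IsUnit M.toBlocks₁₁.det) (I : Ideal R)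
    (h1 : ∀ a b, (M.toBlocks₂₂ - M.toBlocks₂₁ * M.toBlocks₁₁⁻¹ * M.toBlocks₁₂) a b ∈ I)
    (h2 : ∀ i j, (Mᵀ * N) (Sum.inl i) j ∈ I) :
    ∀ i j, (Mᵀ * N) i j ∈ I := by
  intro i j
  rcases i with i | b
  · exact h2 i j
  · set M11 := M.toBlocks₁₁
    set M12 := M.toBlocks₁₂
    set M21 := M.toBlocks₂₁
    set M22 := M.toBlocks₂₂
    let N1 : Matrix P J R := N.submatrix Sum.inl id
    let N2 : Matrix A J R := N.submatrix Sum.inr id
    have e1 : ∀ i j, (Mᵀ * N) (Sum.inl i) j = (M11ᵀ * N1 + M21ᵀ * N2) i j := by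
      intro i j
      simp only [Matrix.mul_apply, Matrix.add_apply, Fintype.sum_sum_type, Matrix.transpose_apply]
      rfl
    have e2 : (Mᵀ * N) (Sum.inr b) j = (M12ᵀ * N1 + M22ᵀ * N2) b j := by
      simp only [Matrix.mul_apply, Matrix.add_apply, Fintype.sum_sum_type, Matrix.transpose_apply]
      rfl
    have e3 : M12ᵀ * N1 + M22ᵀ * N2 =
        (M11⁻¹ * M12)ᵀ * (M11ᵀ * N1 + M21ᵀ * N2) + (M22 - M21 * M11⁻¹ * M12)ᵀ * N2 := by
      have hinv : M11 * M11⁻¹ = 1 := Matrix.mul_nonsing_inv _ hM
      have h3 : (M11⁻¹)ᵀ * M11ᵀ = 1 := by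
        rw [← Matrix.transpose_mul, hinv, Matrix.transpose_one]
      rw [Matrix.mul_add, Matrix.transpose_mul, Matrix.transpose_sub, Matrix.transpose_mul,
        Matrix.transpose_mul, Matrix.sub_mul]
      have h4 : M12ᵀ * M11⁻¹ᵀ * (M11ᵀ * N1) = M12ᵀ * N1 := by
        rw [Matrix.mul_assoc, ← Matrix.mul_assoc (M11⁻¹ᵀ), h3, Matrix.one_mul]
      rw [h4]
      simp only [Matrix.mul_assoc]
      abel
    rw [e2, e3, Matrix.add_apply, Matrix.mul_apply, Matrix.mul_apply]
    apply I.add_mem
    · apply I.sum_mem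
      intro k _
      apply I.mul_mem_left
      rw [← e1]
      exact h2 k j
    · apply I.sum_mem
      intro k _
      apply I.mul_mem_right
      exact h1 k b

variable {n : ℕ}

/-- variables: `inl (k, i)` symbol `k` in row `i`, `inr (k, j)` symbol `k` in column `j` -/
abbrev Var (n : ℕ) := (Fin n × Fin n) ⊕ (Fin n × Fin n)

/-- the variables with augmentation one -/
def DD (p : ℕ) : Var n → Prop
  | Sum.inl (k, i) => k = i ∧ (k : ℕ) < p
  | Sum.inr _ => False

instance (p : ℕ) : DecidablePred (DD (n := n) p) := fun v => by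
  rcases v with ⟨k, i⟩ | v
  · unfold DD; infer_instance
  · unfold DD; infer_instance

/-- the first matrix of variables -/
noncomputable def MX (n p : ℕ) : Matrix (Fin n) (Fin n) (Al (Var n)) :=
  fun k i => X (DD p) (Sum.inl (k, i))

/-- the second matrix of variables -/
noncomputable def MY (n p : ℕ) : Matrix (Fin n) (Fin n) (Al (Var n)) :=
  fun k j => X (DD p) (Sum.inr (k, j))

/-- more than `(n-p)² + pn` entries of `XᵀY` have product zero -/
theorem prod_entries_eq_zero (n p : ℕ) (hp : p ≤ n) (E : Finset (Fin n × Fin n))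
    (hE : (n - p) * (n - p) + p * n < E.card) :
    ∏ c ∈ E, ((MX n p)ᵀ * MY n p) c.1 c.2 = 0 := by
  classical
  let e : Fin n ≃ Fin p ⊕ Fin (n - p) :=
    (finCongr (by omega : n = p + (n - p))).trans finSumFinEquiv.symm
  let M : Matrix (Fin p ⊕ Fin (n - p)) (Fin p ⊕ Fin (n - p)) (Al (Var n)) :=
    (MX n p).submatrix e.symm e.symm
  let N : Matrix (Fin p ⊕ Fin (n - p)) (Fin n) (Al (Var n)) := (MY n p).submatrix e.symm id
  have hval1 : ∀ a : Fin p, ((e.symm (Sum.inl a) : Fin n) : ℕ) = a := by
    intro a; simp [e]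
  have hval2 : ∀ a : Fin (n - p), ((e.symm (Sum.inr a) : Fin n) : ℕ) = p + a := by
    intro a; simp [e]
  have haugX : ∀ k i, aug (MX n p k i) = if k = i ∧ (k : ℕ) < p then 1 else 0 := by
    intro k i
    unfold MX
    rw [aug_X]
    rfl
  have haugY : ∀ k i, aug (MY n p k i) = 0 := by
    intro k i
    unfold MY
    rw [aug_X]
    rfl
  have hM11 : M.toBlocks₁₁.map aug = 1 := by
    ext a b
    show aug (MX n p (e.symm (Sum.inl a)) (e.symm (Sum.inl b))) = _
    rw [haugX, Matrix.one_apply]
    have h1 := hval1 a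
    have h2 : (e.symm (Sum.inl a) = e.symm (Sum.inl b)) ↔ a = b := by
      rw [e.symm.injective.eq_iff, Sum.inl.injEq]
    by_cases hab : a = b
    · rw [if_pos ⟨h2.2 hab, by rw [h1]; exact a.2⟩, if_pos hab]
    · rw [if_neg (fun h => hab (h2.1 h.1)), if_neg hab]
  have hM21 : M.toBlocks₂₁.map aug = 0 := by
    ext a b
    show aug (MX n p (e.symm (Sum.inr a)) (e.symm (Sum.inl b))) = _
    rw [haugX, if_neg]
    · rfl
    · rintro ⟨_, h⟩
      rw [hval2] at h
      omega
  have hM22 : M.toBlocks₂₂.map aug = 0 := by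
    ext a b
    show aug (MX n p (e.symm (Sum.inr a)) (e.symm (Sum.inr b))) = _
    rw [haugX, if_neg]
    · rfl
    · rintro ⟨_, h⟩
      rw [hval2] at h
      omega
  have hdet : IsUnit M.toBlocks₁₁.det := by
    apply isUnit_of_aug
    rw [RingHom.map_det]
    show (M.toBlocks₁₁.map aug).det = 1
    rw [hM11, Matrix.det_one]
  let t : (Fin (n - p) × Fin (n - p)) ⊕ (Fin p × Fin n) → Al (Var n) := fun s =>
    match s with
    | Sum.inl (a, b) => (M.toBlocks₂₂ - M.toBlocks₂₁ * M.toBlocks₁₁⁻¹ * M.toBlocks₁₂) a b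
    | Sum.inr (i, j) => (Mᵀ * N) (Sum.inl i) j
  have ht : ∀ s, t s * t s = 0 := by
    intro s
    apply sq_zero
    rcases s with ⟨a, b⟩ | ⟨i, j⟩
    · show aug ((M.toBlocks₂₂ - M.toBlocks₂₁ * M.toBlocks₁₁⁻¹ * M.toBlocks₁₂) a b) = 0
      have : (M.toBlocks₂₂ - M.toBlocks₂₁ * M.toBlocks₁₁⁻¹ * M.toBlocks₁₂).map aug = 0 := by
        rw [Matrix.map_sub (f := aug) (fun x y => map_sub aug x y), Matrix.map_mul, Matrix.map_mul,
          hM21, hM22]
        simp
      exact congrFun (congrFun this a) b
    · show aug ((Mᵀ * N) (Sum.inl i) j) = 0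
      rw [Matrix.mul_apply, map_sum]
      apply Finset.sum_eq_zero
      intro k _
      rw [map_mul]
      have : aug (N k j) = 0 := haugY _ _
      rw [this, mul_zero]
  have hmem : ∀ c : Fin n × Fin n, ((MX n p)ᵀ * MY n p) c.1 c.2 ∈ Ideal.span (Set.range t) := by
    intro c
    have h1 := entries_mem M N hdet (Ideal.span (Set.range t))
      (fun a b => Ideal.subset_span ⟨Sum.inl (a, b), rfl⟩)
      (fun i j => Ideal.subset_span ⟨Sum.inr (i, j), rfl⟩) (e c.1) c.2
    have h2 : (Mᵀ * N) (e c.1) c.2 = ((MX n p)ᵀ * MY n p) c.1 c.2 := by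
      rw [Matrix.mul_apply, Matrix.mul_apply]
      rw [← Equiv.sum_comp e.symm]
      apply Finset.sum_congr rfl
      intro k _
      show M k (e c.1) * N k c.2 = MX n p (e.symm k) c.1 * MY n p (e.symm k) c.2
      show MX n p (e.symm k) (e.symm (e c.1)) * MY n p (e.symm k) c.2 = _
      rw [e.symm_apply_apply]
    rw [← h2]
    exact h1
  have h3 := prod_eq_zero_of_sq_zero t ht (fun c : E => ((MX n p)ᵀ * MY n p) c.1.1 c.1.2)
    (fun c => hmem c.1) (by
      rw [Fintype.card_sum, Fintype.card_prod, Fintype.card_prod, Fintype.card_coe]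
      simpa using hE)
  rw [← h3]
  exact (Finset.prod_coe_sort E (fun c => ((MX n p)ᵀ * MY n p) c.1 c.2)).symm

/-- latin squares -/
def Latin (L : Fin n → Fin n → Fin n) : Prop :=
  (∀ i, Function.Injective (L i)) ∧ ∀ j, Function.Injective (fun i => L i j)

open Classical in
/-- the parity theorem: if more than `(n-p)² + pn` cells are empty then the number of latin squares
with the given entries on `S` is even -/
theorem parity (n p : ℕ) (hp : p ≤ n) (L : Fin n → Fin n → Fin n)
    (S : Finset (Fin n × Fin n)) (hS : (n - p) * (n - p) + p * n < (Finset.univ \ S).card) :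
    ((Finset.univ.filter (fun M : Fin n × Fin n → Fin n =>
      Latin (fun i j => M (i, j)) ∧ ∀ c ∈ S, M c = L c.1 c.2)).card : ZMod 2) = 0 := by
  let K : Fin n × Fin n → Finset (Fin n) := fun c => if c ∈ S then {L c.1 c.2} else Finset.univ
  let G : Fin n × Fin n → Al (Var n) := fun c => ∑ k ∈ K c, MX n p k c.1 * MY n p k c.2
  have hG0 : ∏ c, G c = 0 := by
    rw [← Finset.prod_sdiff (Finset.subset_univ S)]
    have h1 : ∏ c ∈ Finset.univ \ S, G c = ∏ c ∈ Finset.univ \ S, ((MX n p)ᵀ * MY n p) c.1 c.2 := by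
      apply Finset.prod_congr rfl
      intro c hc
      have hc' : c ∉ S := (Finset.mem_sdiff.1 hc).2
      show ∑ k ∈ K c, MX n p k c.1 * MY n p k c.2 = _
      rw [Matrix.mul_apply]
      have : K c = Finset.univ := if_neg hc'
      rw [this]
      rfl
    rw [h1, prod_entries_eq_zero n p hp _ hS, zero_mul]
  let f : (Fin n × Fin n → Fin n) → Var n → Var n := fun M w =>
    match w with
    | Sum.inl c => Sum.inl (M c, c.1)
    | Sum.inr c => Sum.inr (M c, c.2)
  have hf : ∀ M : Fin n × Fin n → Fin n, Function.Injective (f M) ↔ Latin (fun i j => M (i, j)) := by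
    intro M
    constructor
    · intro h
      refine ⟨fun i j j' hj => ?_, fun j i i' hi => ?_⟩
      · have h1 : f M (Sum.inl (i, j) : Var n) = f M (Sum.inl (i, j') : Var n) := by
          show (Sum.inl (M (i, j), i) : Var n) = Sum.inl (M (i, j'), i)
          have : M (i, j) = M (i, j') := hj
          rw [this]
        have h2 : (Sum.inl (i, j) : Var n) = Sum.inl (i, j') := @h _ _ h1
        simpa using h2
      · have h1 : f M (Sum.inr (i, j) : Var n) = f M (Sum.inr (i', j) : Var n) := by
          show (Sum.inr (M (i, j), j) : Var n) = Sum.inr (M (i', j), j)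
          have : M (i, j) = M (i', j) := hi
          rw [this]
        have h2 : (Sum.inr (i, j) : Var n) = Sum.inr (i', j) := @h _ _ h1
        simpa using h2
    · rintro ⟨h1, h2⟩ w w' hw
      rcases w with ⟨i, j⟩ | ⟨i, j⟩ <;> rcases w' with ⟨i', j'⟩ | ⟨i', j'⟩
      · have hw' : (Sum.inl (M (i, j), i) : Var n) = Sum.inl (M (i', j'), i') := hw
        rw [Sum.inl.injEq, Prod.mk.injEq] at hw'
        obtain ⟨ha, rfl⟩ := hw'
        have := h1 i ha
        rw [this]
      · cases hw
      · cases hw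
      · have hw' : (Sum.inr (M (i, j), j) : Var n) = Sum.inr (M (i', j'), j') := hw
        rw [Sum.inr.injEq, Prod.mk.injEq] at hw'
        obtain ⟨ha, rfl⟩ := hw'
        have := h2 j ha
        rw [this]
  have hexp : ∏ c, G c = ∑ M ∈ Fintype.piFinset K, ∏ w : Var n, X (DD p) (f M w) := by
    show ∏ c, ∑ k ∈ K c, MX n p k c.1 * MY n p k c.2 = _
    rw [Finset.prod_univ_sum]
    apply Finset.sum_congr rfl
    intro M _
    rw [Fintype.prod_sum_type, Finset.prod_mul_distrib]
    rfl
  have h0 : top (∏ c, G c) = 0 := by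
    rw [hG0]
    rfl
  rw [hexp, top_sum] at h0
  have h1 : ∀ M ∈ Fintype.piFinset K, top (∏ w : Var n, X (DD p) (f M w)) =
      if Latin (fun i j => M (i, j)) then 1 else 0 := by
    intro M _
    rw [top_prod (DD p) rfl (f M)]
    by_cases h : Latin (fun i j => M (i, j))
    · rw [if_pos h, if_pos ((hf M).2 h)]
    · rw [if_neg h, if_neg (fun h' => h ((hf M).1 h'))]
  rw [Finset.sum_congr rfl h1, Finset.sum_boole] at h0
  rw [← h0]
  congr 2
  ext M
  simp only [Finset.mem_filter, Finset.mem_univ, true_and, Fintype.mem_piFinset]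
  rw [and_comm]
  apply and_congr_left
  intro _
  constructor
  · intro h c
    by_cases hc : c ∈ S
    · have : K c = {L c.1 c.2} := if_pos hc
      rw [this, Finset.mem_singleton]
      exact h c hc
    · have : K c = Finset.univ := if_neg hc
      rw [this]
      exact Finset.mem_univ _
  · intro h c hc
    have := h c
    have hK : K c = {L c.1 c.2} := if_pos hc
    rw [hK, Finset.mem_singleton] at this
    exact this

/-- **lower bound**: a defining set of a latin square of order `n` has at least `⌊n²/4⌋` cells -/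
theorem lower (n : ℕ) (L : Fin n → Fin n → Fin n) (hL : Latin L) (S : Finset (Fin n × Fin n))
    (h : ∀ M : Fin n → Fin n → Fin n, Latin M → (∀ p ∈ S, M p.1 p.2 = L p.1 p.2) → M = L) :
    n ^ 2 / 4 ≤ S.card := by
  classical
  by_contra hc
  push Not at hc
  set p := n / 2 with hpdef
  have hp : p ≤ n := Nat.div_le_self _ _
  have hcard : (Finset.univ \ S).card = n * n - S.card := by
    rw [Finset.card_sdiff_of_subset (Finset.subset_univ S), Finset.card_univ, Fintype.card_prod,
      Fintype.card_fin]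
  have hid : (n - p) * (n - p) + p * n + n ^ 2 / 4 = n * n := by
    rcases Nat.even_or_odd' n with ⟨m, hm | hm⟩
    · have h1 : p = m := by omega
      have h2 : n - p = m := by omega
      have h3 : n ^ 2 / 4 = m * m := by
        rw [hm]
        have : (2 * m) ^ 2 = 4 * (m * m) := by ring
        rw [this]
        omega
      rw [h2, h3, h1, hm]
      ring
    · have h1 : p = m := by omega
      have h2 : n - p = m + 1 := by omega
      have h3 : n ^ 2 / 4 = m * m + m := by
        rw [hm]
        have : (2 * m + 1) ^ 2 = 4 * (m * m + m) + 1 := by ring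
        rw [this]
        omega
      rw [h2, h3, h1, hm]
      ring
  have hpar := parity n p hp L S (by rw [hcard]; omega)
  have hone : (Finset.univ.filter (fun M : Fin n × Fin n → Fin n =>
      Latin (fun i j => M (i, j)) ∧ ∀ c ∈ S, M c = L c.1 c.2)) = {fun c => L c.1 c.2} := by
    ext M
    simp only [Finset.mem_filter, Finset.mem_univ, true_and, Finset.mem_singleton]
    constructor
    · rintro ⟨h1, h2⟩
      have := h (fun i j => M (i, j)) h1 (fun p hp => h2 p hp)
      funext c
      exact congrFun (congrFun this c.1) c.2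
    · rintro rfl
      exact ⟨hL, fun c _ => rfl⟩
  rw [hone, Finset.card_singleton] at hpar
  simp at hpar

end Pool34cb91
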