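import Pool.Agent.Lib.MP_34cb91_co.Lower

/-!
# MP_34cb91_co: the upper bound
-/

namespace Pool34cb91

theorem two_sum (q : ℕ) : 2 * ∑ i ∈ Finset.range q, (i + 1) = q * (q + 1) := by
  induction q with
  | zero => simp
  | succ q ih => rw [Finset.sum_range_succ, mul_add, ih]; ring

theorem two_sum' (q : ℕ) : 2 * ∑ i ∈ Finset.range q, i + q = q * q := by
  induction q with
  | zero => simp
  | succ q ih =>
    rw [Finset.sum_range_succ, mul_add]
    have : 2 * ∑ i ∈ Finset.range q, i = q * q - q := by omega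
    nlinarith

theorem sum_abs (n q : ℕ) (hq : q ≤ n) :
    2 * ∑ i ∈ Finset.range n, ((q - i) + (i - q)) + (n - q) = q * (q + 1) + (n - q) * (n - q) := by
  obtain ⟨m, rfl⟩ := Nat.exists_eq_add_of_le hq
  rw [Finset.sum_range_add]
  have h1 : ∑ i ∈ Finset.range q, ((q - i) + (i - q)) = ∑ i ∈ Finset.range q, (i + 1) := by
    rw [← Finset.sum_range_reflect]
    apply Finset.sum_congr rfl
    intro i hi
    rw [Finset.mem_range] at hi
    omega
  have h2 : ∑ i ∈ Finset.range m, ((q - (q + i)) + ((q + i) - q)) = ∑ i ∈ Finset.range m, i := by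
    apply Finset.sum_congr rfl
    intro i _
    omega
  rw [h1, h2, mul_add, two_sum, Nat.add_sub_cancel_left, add_assoc, two_sum']

/-- the cells of the defining set -/
def cells (n : ℕ) : Finset (Fin n × Fin n) :=
  Finset.univ.filter (fun c => (c.1 : ℕ) + c.2 < n / 2 ∨ n + n / 2 ≤ (c.1 : ℕ) + c.2)

theorem card_row (n i : ℕ) (hi : i < n) :
    (Finset.univ.filter (fun j : Fin n => i + (j : ℕ) < n / 2 ∨ n + n / 2 ≤ i + (j : ℕ))).card =
      (n / 2 - i) + (i - n / 2) := by
  have h1 : (Finset.univ.filter (fun j : Fin n => i + (j : ℕ) < n / 2 ∨ n + n / 2 ≤ i + (j : ℕ))).card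
      = ((Finset.range n).filter (fun j : ℕ => i + j < n / 2 ∨ n + n / 2 ≤ i + j)).card := by
    rw [← Finset.card_map Fin.valEmbedding]
    congr 1
    ext j
    simp only [Finset.mem_map, Finset.mem_filter, Finset.mem_univ, true_and, Fin.valEmbedding_apply,
      Finset.mem_range]
    constructor
    · rintro ⟨a, ha, rfl⟩
      exact ⟨a.2, ha⟩
    · rintro ⟨ha, hb⟩
      exact ⟨⟨j, ha⟩, hb, rfl⟩
  rw [h1]
  have h2 : (Finset.range n).filter (fun j : ℕ => i + j < n / 2 ∨ n + n / 2 ≤ i + j) =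
      Finset.range (n / 2 - i) ∪ Finset.Ico (n + n / 2 - i) n := by
    ext j
    simp only [Finset.mem_union, Finset.mem_filter, Finset.mem_range, Finset.mem_Ico]
    omega
  rw [h2, Finset.card_union_of_disjoint, Finset.card_range, Nat.card_Ico]
  · omega
  · rw [Finset.disjoint_left]
    intro j hj hj'
    rw [Finset.mem_range] at hj
    rw [Finset.mem_Ico] at hj'
    omega

theorem card_cells (n : ℕ) : (cells n).card = n ^ 2 / 4 := by
  have h1 : (cells n).card = ∑ i ∈ Finset.range n, ((n / 2 - i) + (i - n / 2)) := by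
    rw [← Fin.sum_univ_eq_sum_range (fun i => (n / 2 - i) + (i - n / 2)) n]
    unfold cells
    rw [Finset.card_filter, Fintype.sum_prod_type]
    apply Finset.sum_congr rfl
    intro i _
    rw [← card_row n i i.2, Finset.card_filter]
  have h2 := sum_abs n (n / 2) (Nat.div_le_self n 2)
  rw [← h1] at h2
  rcases Nat.even_or_odd' n with ⟨m, hm | hm⟩
  · have e1 : n / 2 = m := by omega
    have e2 : n - n / 2 = m := by omega
    have e3 : n ^ 2 / 4 = m * m := by
      rw [hm]
      have : (2 * m) ^ 2 = 4 * (m * m) := by ring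
      rw [this]
      omega
    rw [e2, e1] at h2
    rw [e3]
    nlinarith
  · have e1 : n / 2 = m := by omega
    have e2 : n - n / 2 = m + 1 := by omega
    have e3 : n ^ 2 / 4 = m * m + m := by
      rw [hm]
      have : (2 * m + 1) ^ 2 = 4 * (m * m + m) + 1 := by ring
      rw [this]
      omega
    rw [e2, e1] at h2
    rw [e3]
    nlinarith

/-- the representative of a symbol in the interval `[q, q + n)`, `q = n / 2` -/
def sg {n : ℕ} (s : Fin n) : ℤ := if (s : ℕ) < n / 2 then (s : ℤ) + n else (s : ℤ)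

theorem sg_injective {n : ℕ} : Function.Injective (sg (n := n)) := by
  intro s t h
  unfold sg at h
  have hs := s.2
  have ht := t.2
  apply Fin.ext
  split_ifs at h <;> omega

/-- the addition table of the integers modulo `n` -/
def back {n : ℕ} (i j : Fin n) : Fin n := ⟨((i : ℕ) + j) % n, Nat.mod_lt _ (Fin.pos i)⟩

theorem back_latin (n : ℕ) : Latin (back (n := n)) := by
  constructor
  · intro i j j' h
    have h1 : ((i : ℕ) + j) % n = ((i : ℕ) + j') % n := congrArg Fin.val h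
    have h2 : (j : ℕ) ≡ j' [MOD n] := Nat.ModEq.add_left_cancel' _ h1
    apply Fin.ext
    exact Nat.ModEq.eq_of_lt_of_lt h2 j.2 j'.2
  · intro j i i' h
    have h1 : ((i : ℕ) + j) % n = ((i' : ℕ) + j) % n := congrArg Fin.val h
    have h2 : (i : ℕ) ≡ i' [MOD n] := Nat.ModEq.add_right_cancel' _ h1
    apply Fin.ext
    exact Nat.ModEq.eq_of_lt_of_lt h2 i.2 i'.2

theorem sg_back {n : ℕ} (c : Fin n × Fin n) (hc : c ∉ cells n) :
    sg (back c.1 c.2) = (c.1 : ℤ) + c.2 := by
  obtain ⟨i, j⟩ := c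
  unfold cells at hc
  simp only [Finset.mem_filter, Finset.mem_univ, true_and, not_or, not_lt, not_le] at hc
  obtain ⟨h1, h2⟩ := hc
  unfold sg back
  have hi := i.2
  have hj := j.2
  by_cases h : (i : ℕ) + j < n
  · have e : ((i : ℕ) + j) % n = i + j := Nat.mod_eq_of_lt h
    simp only [e]
    rw [if_neg (by omega)]
    push_cast
    ring
  · have e : ((i : ℕ) + j) % n = i + j - n := by
      rw [Nat.mod_eq_sub_mod (by omega), Nat.mod_eq_of_lt (by omega)]
    simp only [e]
    rw [if_pos (by omega)]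
    omega

theorem sum_row {n : ℕ} {M : Fin n → Fin n → Fin n} (hM : Latin M) (i : Fin n) (g : Fin n → ℤ) :
    ∑ j, g (M i j) = ∑ s, g s :=
  Function.Bijective.sum_comp (Finite.injective_iff_bijective.1 (hM.1 i)) g

theorem sum_col {n : ℕ} {M : Fin n → Fin n → Fin n} (hM : Latin M) (j : Fin n) (g : Fin n → ℤ) :
    ∑ i, g (M i j) = ∑ s, g s :=
  Function.Bijective.sum_comp (Finite.injective_iff_bijective.1 (hM.2 j)) g

/-- the quadratic energy is the same for all latin squares -/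
theorem energy {n : ℕ} {M : Fin n → Fin n → Fin n} (hM : Latin M) :
    ∑ i : Fin n, ∑ j : Fin n, ((i : ℤ) + j - sg (M i j)) ^ 2 =
      (∑ i : Fin n, ∑ j : Fin n, ((i : ℤ) + j) ^ 2) + (∑ _i : Fin n, ∑ s : Fin n, sg s ^ 2)
        - 2 * (∑ i : Fin n, (i : ℤ) * ∑ s : Fin n, sg s) - 2 * (∑ j : Fin n, (j : ℤ) * ∑ s : Fin n, sg s) := by
  have h1 : ∀ i : Fin n, ∑ j : Fin n, sg (M i j) ^ 2 = ∑ s : Fin n, sg s ^ 2 := fun i =>
    sum_row hM i (fun s => sg s ^ 2)
  have h2 : ∑ i : Fin n, ∑ j : Fin n, (i : ℤ) * sg (M i j) = ∑ i : Fin n, (i : ℤ) * ∑ s : Fin n, sg s := by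
    apply Finset.sum_congr rfl
    intro i _
    rw [← Finset.mul_sum, sum_row hM i sg]
  have h3 : ∑ i : Fin n, ∑ j : Fin n, (j : ℤ) * sg (M i j) = ∑ j : Fin n, (j : ℤ) * ∑ s : Fin n, sg s := by
    rw [Finset.sum_comm]
    apply Finset.sum_congr rfl
    intro j _
    rw [← Finset.mul_sum, sum_col hM j sg]
  have h0 : ∑ i : Fin n, ∑ j : Fin n, ((i : ℤ) + j - sg (M i j)) ^ 2 =
      (∑ i : Fin n, ∑ j : Fin n, ((i : ℤ) + j) ^ 2) + (∑ i : Fin n, ∑ j : Fin n, sg (M i j) ^ 2)
        - 2 * (∑ i : Fin n, ∑ j : Fin n, (i : ℤ) * sg (M i j))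
        - 2 * (∑ i : Fin n, ∑ j : Fin n, (j : ℤ) * sg (M i j)) := by
    simp only [Finset.mul_sum, ← Finset.sum_add_distrib, ← Finset.sum_sub_distrib]
    apply Finset.sum_congr rfl
    intro i _
    apply Finset.sum_congr rfl
    intro j _
    ring
  rw [h0, h2, h3, Finset.sum_congr rfl (fun i _ => h1 i)]

/-- **upper bound**: the addition table of the integers modulo `n` is determined by its entries on
the `⌊n²/4⌋` cells with `i + j < n / 2` or `i + j ≥ n + n / 2` -/
theorem upper (n : ℕ) (M : Fin n → Fin n → Fin n) (hM : Latin M)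
    (h : ∀ p ∈ cells n, M p.1 p.2 = back p.1 p.2) : M = back := by
  have h1 := energy hM
  rw [← energy (back_latin n)] at h1
  have h2 : ∀ N : Fin n → Fin n → Fin n,
      ∑ i : Fin n, ∑ j : Fin n, ((i : ℤ) + j - sg (N i j)) ^ 2 =
        ∑ c ∈ Finset.univ \ cells n, ((c.1 : ℤ) + c.2 - sg (N c.1 c.2)) ^ 2 +
        ∑ c ∈ cells n, ((c.1 : ℤ) + c.2 - sg (N c.1 c.2)) ^ 2 := by
    intro N
    rw [Finset.sum_sdiff (Finset.subset_univ (cells n)), Fintype.sum_prod_type]
  rw [h2 M, h2 back] at h1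
  have h3 : ∑ c ∈ cells n, ((c.1 : ℤ) + c.2 - sg (M c.1 c.2)) ^ 2 =
      ∑ c ∈ cells n, ((c.1 : ℤ) + c.2 - sg (back c.1 c.2)) ^ 2 := by
    apply Finset.sum_congr rfl
    intro c hc
    rw [h c hc]
  have h4 : ∑ c ∈ Finset.univ \ cells n, ((c.1 : ℤ) + c.2 - sg (back c.1 c.2)) ^ 2 = 0 := by
    apply Finset.sum_eq_zero
    intro c hc
    rw [sg_back c (Finset.mem_sdiff.1 hc).2]
    ring
  rw [h3, h4] at h1
  have h5 : ∑ c ∈ Finset.univ \ cells n, ((c.1 : ℤ) + c.2 - sg (M c.1 c.2)) ^ 2 = 0 := by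
    linarith
  rw [Finset.sum_eq_zero_iff_of_nonneg (fun c _ => sq_nonneg _)] at h5
  funext i j
  by_cases hc : (i, j) ∈ cells n
  · exact h (i, j) hc
  · have h6 := h5 (i, j) (Finset.mem_sdiff.2 ⟨Finset.mem_univ _, hc⟩)
    have h7 := sg_back (i, j) hc
    simp only at h6 h7
    have h8 : (i : ℤ) + j - sg (M i j) = 0 := by
      exact pow_eq_zero_iff (two_ne_zero) |>.1 h6
    apply sg_injective
    rw [h7]
    linarith

end Pool34cb91
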